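import Pool.Agent.R986.RF7

/-!
# MP_34a06d_pr, Q1 (negative answer)

The speed of a random walk in an invariant random rate field on a Coxeter group is not monotone in
the field.

Coxeter group: `W = ((Z/2)^2 * (Z/2)^2) × (Z/2 * ... * Z/2)` with 200 factors in the second
coordinate, whose Cayley graph is the 200-regular tree.  Vertices `z` of the tree carry i.i.d.
marks: no mark (probability `1-p`), type `A` or type `B` (probability `p/2` each), `p = 10^{-8}`.

* `r₂`: around each marked vertex `c` of type `τ` all tree edges are open, at `c` the two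
  generators of type `τ` are open, and at the neighbours of `c` the two generators of the other
  type are open.
* `r₁`: the edge between `z` and its child `c` is open if `c` is marked; if `c` has type `τ`, the
  generators of type `τ` are open at `c` and those of the other type at `z`.

Obviously `r₁ ≤ r₂`.  The law of `r₂` is invariant, and the law of `r₁` is invariant as well
since it is determined by i.i.d. marks of the edges.  In `r₁` most clusters are single edges with
type `A` at one end and type `B` at the other, and the walk alternates between the two types at a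
positive rate; in `r₂` most clusters are stars with 200 leaves of one type and a centre of the
other type, and the walk is rarely at the centre.
-/

set_option autoImplicit false

open MeasureTheory Filter Topology

namespace Pool.Agent.Results.MP_34a06d_pr.SpeedNotMonotone

open R986.RF

/-- A measurable random field of rates in `[0,1]` on the undirected edges `{w, w s}` of the Cayley
graph of the Coxeter system `cs`, whose law is invariant under left multiplication. The rate of
the edge `{w, w s}` is `r ω w s = r ω (w s) s`. -/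
structure InvField {B : Type} [Fintype B] {M : CoxeterMatrix B} {W : Type} [Group W]
    (cs : CoxeterSystem M W) {Ω : Type} [MeasurableSpace Ω] (μ : Measure Ω)
    (r : Ω → W → B → ℝ) : Prop where
  meas : ∀ w s, Measurable fun ω => r ω w s
  nonneg : ∀ ω w s, 0 ≤ r ω w s
  le_one : ∀ ω w s, r ω w s ≤ 1
  edge : ∀ ω w s, r ω (w * cs.simple s) s = r ω w s
  inv : ∀ g : W, μ.map (fun ω w s => r ω (g * w) s) = μ.map (fun ω w s => r ω w s)

/-- The annealed expected distance from the start at time `t`, divided by `t`, tends to `σ`. -/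
def HasSpeed {B : Type} [Fintype B] {M : CoxeterMatrix B} {W : Type} [Group W]
    (cs : CoxeterSystem M W) {Ω : Type} [MeasurableSpace Ω] (μ : Measure Ω)
    (r : Ω → W → B → ℝ) (σ : ℝ) : Prop :=
  Tendsto (fun t : ℝ => meanLen cs μ r t / t) atTop (𝓝 σ)

lemma Good.all {B : Type} [Fintype B] {M : CoxeterMatrix B} {W : Type} [Group W]
    {cs : CoxeterSystem M W} {Ω : Type} [MeasurableSpace Ω] {μ : Measure Ω}
    {r : Ω → W → B → ℝ} (h : Good cs μ r) (g : W) : ∃ Θ : Ω → Ω, MeasurePreserving Θ μ μ ∧
      ∀ ω w s, r ω (g * w) s = r (Θ ω) w s := by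
  induction g using cs.simple_induction with
  | simple i => exact h.shift i
  | one => exact ⟨id, MeasurePreserving.id _, fun ω w s => by rw [one_mul]; rfl⟩
  | mul g g' ih ih' =>
    obtain ⟨Θ, h1, h2⟩ := ih
    obtain ⟨Θ', h1', h2'⟩ := ih'
    refine ⟨Θ' ∘ Θ, h1'.comp h1, fun ω w s => ?_⟩
    rw [mul_assoc, h2, h2']
    rfl

lemma Good.invField {B : Type} [Fintype B] {M : CoxeterMatrix B} {W : Type} [Group W]
    {cs : CoxeterSystem M W} {Ω : Type} [MeasurableSpace Ω] {μ : Measure Ω}
    {r : Ω → W → B → ℝ} (h : Good cs μ r) : InvField cs μ r where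
  meas := h.meas
  nonneg := h.nonneg
  le_one := h.le_one
  edge := h.symm
  inv := by
    intro g
    obtain ⟨Θ, h1, h2⟩ := Good.all h g
    have hm : Measurable (fun ω w s => r ω w s) :=
      measurable_pi_lambda _ fun w => measurable_pi_lambda _ fun s => h.meas w s
    have e : (fun ω w s => r ω (g * w) s) = (fun ω w s => r ω w s) ∘ Θ := by
      funext ω w s
      exact h2 ω w s
    rw [e, ← Measure.map_map hm h1.measurable, h1.map_eq]

/-- Q1 is false: there are a Coxeter system and coupled invariant random rate fields `r₁ ≤ r₂`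
whose speeds `σ₁`, `σ₂` exist and satisfy `σ₂ < σ₁`. -/
theorem result : ∃ (B : Type) (_ : Fintype B) (M : CoxeterMatrix B) (W : Type) (_ : Group W)
    (cs : CoxeterSystem M W) (Ω : Type) (_ : MeasurableSpace Ω) (μ : Measure Ω)
    (_ : IsProbabilityMeasure μ) (r₁ r₂ : Ω → W → B → ℝ),
    InvField cs μ r₁ ∧ InvField cs μ r₂ ∧ (∀ ω w s, r₁ ω w s ≤ r₂ ω w s) ∧
    ∃ σ₁ σ₂ : ℝ, HasSpeed cs μ r₁ σ₁ ∧ HasSpeed cs μ r₂ σ₂ ∧ σ₂ < σ₁ := by
  have h0 : (0 : ℝ) ≤ 1 / 10 ^ 8 := by norm_num
  have h1 : (1 / 10 ^ 8 : ℝ) ≤ 1 := by norm_num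
  have inst := PP_prob (W2 (Fin 200)) (1 / 10 ^ 8) h0 h1
  have gA := rA_good (D := Fin 200) (1 / 10 ^ 8) h0 h1
  have gB := rB_good (D := Fin 200) (1 / 10 ^ 8) h0 h1
  obtain ⟨lA, hA⟩ := tendsto_stepMean (CS (Fin 200)) gA
  obtain ⟨lB, hB⟩ := tendsto_stepMean (CS (Fin 200)) gB
  refine ⟨(Bool × Bool) ⊕ Fin 200, inferInstance, M1 (Fin 200), WW (Fin 200), inferInstance,
    CS (Fin 200), W2 (Fin 200) → Mark, inferInstance, PP (W2 (Fin 200)) (1 / 10 ^ 8), inst,
    rA, rB, Good.invField gA, Good.invField gB, rA_le_rB, _, _,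
    tendsto_meanLen (CS (Fin 200)) hA, tendsto_meanLen (CS (Fin 200)) hB, ?_⟩
  have e1 := le_lim (CS (Fin 200)) hA (stepMean_lower (D := Fin 200) (1 / 10 ^ 8) h0 h1)
  have e2 := lim_le (CS (Fin 200)) hB (stepMean_upper (D := Fin 200) (1 / 10 ^ 8) h0 h1)
  have hc : (0 : ℝ) < Fintype.card ((Bool × Bool) ⊕ Fin 200) := by
    exact_mod_cast Fintype.card_pos
  rw [div_le_iff₀ hc] at e1
  rw [le_div_iff₀ hc] at e2
  rw [Fintype.card_fin] at e1 e2
  have e3 : lB * (Fintype.card ((Bool × Bool) ⊕ Fin 200) : ℝ) <
      lA * (Fintype.card ((Bool × Bool) ⊕ Fin 200) : ℝ) := by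
    refine lt_of_le_of_lt e2 (lt_of_lt_of_le ?_ e1)
    norm_num
  linarith

end Pool.Agent.Results.MP_34a06d_pr.SpeedNotMonotone
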